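import Pool.Agent.Q279.BA.Est

/-!
# A supercongruence modulo `p ^ 5`
-/

set_option autoImplicit false

namespace Pool.Agent.Results.MP_558e64_nt.ModPFive

open Finset

/-- `a n = ∑_{j=0}^{n-1} C(n, j) C(n-1, j) C(n+j-1, j) ^ 2` for `n ≥ 1`, and `a 0 = 1`. -/
def a (n : ℕ) : ℕ :=
  if n = 0 then 1
  else ∑ j ∈ range n, n.choose j * (n - 1).choose j * (n + j - 1).choose j ^ 2

/-- For every prime `p ≥ 5`, `p ^ 5` divides `a p - 1`. -/
theorem result : ∀ p : ℕ, p.Prime → 5 ≤ p → (p : ℤ) ^ 5 ∣ (a p : ℤ) - 1 := by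
  intro p hp h5
  haveI : Fact p.Prime := ⟨hp⟩
  have h := Q279.BA.prime_case (p := p) h5
  have e : a p = Q279.BA.a p := by
    unfold a
    rw [if_neg hp.ne_zero]
    rfl
  rw [e]
  exact h

end Pool.Agent.Results.MP_558e64_nt.ModPFive
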